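import Pool.Agent.Helper45.HP.Defs
import Pool.Agent.Helper5.RS.BTap

/-!
# Brun-Titchmarsh for prescribed quadratic characters (project HP)
-/

set_option autoImplicit false

namespace Pool.Agent.HP

open Finset

/-- the residues with a given quadratic character -/
theorem card_char (p : ℕ) (hp : p.Prime) (h2 : p ≠ 2) (ε : ℤ) (hε : ε = 1 ∨ ε = -1) :
    2 * (((range p).filter fun b : ℕ => jacobiSym b p = ε).card : ℤ) = p - 1 := by
  haveI : Fact p.Prime := ⟨hp⟩
  have hJ : ∀ b : ℕ, jacobiSym b p = quadraticChar (ZMod p) (b : ZMod p) := by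
    intro b
    rw [← jacobiSym.legendreSym.to_jacobiSym, legendreSym, Int.cast_natCast]
  have hsum : ∑ b ∈ range p, jacobiSym b p = 0 := by
    have h1 : ∑ b ∈ range p, jacobiSym b p = ∑ a : ZMod p, quadraticChar (ZMod p) a := by
      refine Finset.sum_bij (fun b _ => (b : ZMod p)) (fun _ _ => Finset.mem_univ _) ?_ ?_ ?_
      · intro a ha b hb h
        have h3 := (ZMod.natCast_eq_natCast_iff' a b p).1 h
        rwa [Nat.mod_eq_of_lt (Finset.mem_range.1 ha), Nat.mod_eq_of_lt (Finset.mem_range.1 hb)]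
          at h3
      · intro a _
        exact ⟨a.val, Finset.mem_range.2 (ZMod.val_lt a), ZMod.natCast_zmod_val a⟩
      · intro b _
        exact hJ b
    rw [h1]
    exact quadraticChar_sum_zero ((ZMod.ringChar_zmod_n p).substr h2)
  have key : ∀ b ∈ range p, 2 * (if jacobiSym b p = ε then (1 : ℤ) else 0) =
      (if b = 0 then 0 else 1) + ε * jacobiSym b p := by
    intro b hb
    by_cases h0 : b = 0
    · have h3 : jacobiSym b p = 0 := by
        rw [hJ, h0, Nat.cast_zero]
        exact quadraticChar_zero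
      rw [h3, if_pos h0, if_neg]
      · ring
      · intro h
        rcases hε with rfl | rfl <;> omega
    · have h4 : (b : ZMod p) ≠ 0 := by
        intro h
        rw [ZMod.natCast_eq_zero_iff] at h
        exact absurd (Nat.le_of_dvd (Nat.pos_of_ne_zero h0) h)
          (not_le.2 (Finset.mem_range.1 hb))
      rw [if_neg h0, hJ]
      rcases quadraticChar_dichotomy h4 with h5 | h5 <;> rw [h5] <;>
        rcases hε with rfl | rfl <;> simp
  have h7 : ∑ b ∈ range p, (if b = 0 then (0 : ℤ) else 1) = p - 1 := by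
    have h8 : ∀ b ∈ range p, (if b = 0 then (0 : ℤ) else 1) = 1 - (if b = 0 then 1 else 0) := by
      intro b _
      split_ifs <;> ring
    rw [Finset.sum_congr rfl h8, Finset.sum_sub_distrib, Finset.sum_ite_eq',
      if_pos (Finset.mem_range.2 hp.pos)]
    simp
  rw [Finset.card_filter]
  push_cast
  rw [Finset.mul_sum, Finset.sum_congr rfl key, Finset.sum_add_distrib, ← Finset.mul_sum, hsum, h7]
  ring

/-- the residue classes -/
noncomputable def Bset (m : ℕ) (η : ℕ → ℤ) : Finset ℕ :=
  (range m).filter fun b => ∀ p ∈ m.primeFactors, jacobiSym b p = η p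

theorem jac_mod (b p : ℕ) : jacobiSym (b % p : ℕ) p = jacobiSym b p := by
  rw [jacobiSym.mod_left (b : ℤ) p, Int.natCast_mod]

theorem card_Bset {m : ℕ} (hm : Squarefree m) (hodd : Odd m) (η : ℕ → ℤ)
    (hη : ∀ p ∈ m.primeFactors, η p = 1 ∨ η p = -1) :
    ((Bset m η).card : ℝ) ≤ (1 / 2) ^ m.primeFactors.card * Nat.totient m := by
  classical
  let T : ∀ p : ℕ, Finset ℕ := fun p => (range p).filter fun b : ℕ => jacobiSym b p = η p
  have h1 : (Bset m η).card ≤ (Finset.pi m.primeFactors T).card := by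
    refine Finset.card_le_card_of_injOn (fun b p _ => b % p) ?_ ?_
    · intro b hb
      rw [Finset.mem_coe, Bset, Finset.mem_filter] at hb
      rw [Finset.mem_coe, Finset.mem_pi]
      intro p hp
      rw [Finset.mem_filter, Finset.mem_range]
      exact ⟨Nat.mod_lt _ (Nat.prime_of_mem_primeFactors hp).pos, by
        rw [jac_mod]
        exact hb.2 p hp⟩
    · have key : ∀ b c : ℕ, b < m → c < m → b ≤ c →
          (∀ p ∈ m.primeFactors, b % p = c % p) → b = c := by
        intro b c hb hc hle h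
        have h3 : (∏ p ∈ m.primeFactors, p) ∣ c - b :=
          Finset.prod_primes_dvd _ (fun p hp => (Nat.prime_of_mem_primeFactors hp).prime)
            fun p hp => (Nat.modEq_iff_dvd' hle).1 (h p hp)
        rw [Nat.prod_primeFactors_of_squarefree hm] at h3
        have h4 := Nat.eq_zero_of_dvd_of_lt h3 (by omega)
        omega
      intro b hb c hc h
      rw [Finset.mem_coe, Bset, Finset.mem_filter, Finset.mem_range] at hb hc
      have h3 : ∀ p ∈ m.primeFactors, b % p = c % p := fun p hp =>
        congrFun (congrFun h p) hp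
      rcases le_total b c with hle | hle
      · exact key b c hb.1 hc.1 hle h3
      · exact (key c b hc.1 hb.1 hle fun p hp => (h3 p hp).symm).symm
  have h2 : ∀ p ∈ m.primeFactors, ((T p).card : ℝ) = 1 / 2 * ((p : ℝ) - 1) := by
    intro p hp
    have hpp := Nat.prime_of_mem_primeFactors hp
    have hp2 : p ≠ 2 := by
      rintro rfl
      have := Nat.dvd_of_mem_primeFactors hp
      exact (Nat.not_even_iff_odd.2 hodd) (even_iff_two_dvd.2 this)
    have h5 := card_char p hpp hp2 (η p) (hη p hp)
    have h6 : (2 : ℝ) * ((T p).card : ℝ) = p - 1 := by exact_mod_cast h5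
    linarith
  have h3 : (Nat.totient m : ℝ) = ∏ p ∈ m.primeFactors, ((p : ℝ) - 1) := by
    have h5 := Nat.totient_mul_prod_primeFactors m
    rw [Nat.prod_primeFactors_of_squarefree hm, mul_comm] at h5
    have h6 : Nat.totient m = ∏ p ∈ m.primeFactors, (p - 1) :=
      Nat.eq_of_mul_eq_mul_left (Nat.pos_of_ne_zero hm.ne_zero) h5
    rw [h6]
    push_cast
    refine Finset.prod_congr rfl fun p hp => ?_
    rw [Nat.cast_pred (Nat.prime_of_mem_primeFactors hp).pos]
  calc ((Bset m η).card : ℝ) ≤ ((Finset.pi m.primeFactors T).card : ℝ) := by exact_mod_cast h1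
    _ = ∏ p ∈ m.primeFactors, (1 / 2 * ((p : ℝ) - 1)) := by
      rw [Finset.card_pi]
      push_cast
      exact Finset.prod_congr rfl h2
    _ = (1 / 2) ^ m.primeFactors.card * Nat.totient m := by
      rw [Finset.prod_mul_distrib, Finset.prod_const, h3]

theorem bt : StmtBT := by
  classical
  obtain ⟨C, hC, hbt⟩ := Pool.Agent.Helper5.RS.bt_ap
  refine ⟨2 * C, by linarith, fun m hm hodd η u h hh hmh S hS hη => ?_⟩
  have hm0 : 0 < m := Nat.pos_of_ne_zero hm.ne_zero
  have h2m : 2 * m ≤ h := by
    rcases Nat.lt_or_ge m 2 with h1 | h1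
    · omega
    · nlinarith
  have hmR : (0 : ℝ) < m := by exact_mod_cast hm0
  have hhR : (2 : ℝ) ≤ h := by exact_mod_cast hh
  have hlh : 0 < Real.log h := Real.log_pos (by linarith)
  have hlog : Real.log h / 2 ≤ Real.log ((h : ℝ) / m) := by
    have h1 : Real.log ((m : ℝ) ^ 2) ≤ Real.log h :=
      Real.log_le_log (by positivity) (by exact_mod_cast hmh)
    rw [Real.log_pow] at h1
    rw [Real.log_div (by linarith) hmR.ne']
    push_cast at h1
    linarith
  have hφ : (1 : ℝ) ≤ Nat.totient m := by exact_mod_cast Nat.totient_pos.2 hm0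
  have hlhm : 0 < Real.log ((h : ℝ) / m) := by linarith
  -- the classes
  have hsub : S ⊆ (Bset m η).biUnion fun b =>
      (Finset.Ioc u (u + h)).filter fun p => p.Prime ∧ p ≡ b [MOD m] := by
    intro Q hQ
    obtain ⟨q1, q2, q3, q4⟩ := hS Q hQ
    rw [Finset.mem_biUnion]
    refine ⟨Q % m, ?_, ?_⟩
    · rw [Bset, Finset.mem_filter, Finset.mem_range]
      refine ⟨Nat.mod_lt _ hm0, fun p hp => ?_⟩
      rw [← q4 p hp, ← jac_mod (Q % m) p, Nat.mod_mod_of_dvd _ (Nat.dvd_of_mem_primeFactors hp),
        jac_mod]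
    · rw [Finset.mem_filter, Finset.mem_Ioc]
      exact ⟨⟨q2, q3⟩, q1, (Nat.mod_modEq Q m).symm⟩
  have hcop : ∀ b ∈ Bset m η, Nat.Coprime b m := by
    intro b hb
    rw [Bset, Finset.mem_filter] at hb
    rw [Nat.coprime_comm]
    refine Nat.coprime_of_dvd fun p hp hpm hpb => ?_
    have hmem : p ∈ m.primeFactors := Nat.mem_primeFactors.2 ⟨hp, hpm, hm0.ne'⟩
    have h1 := hb.2 p hmem
    have h3 : jacobiSym b p = 0 := by
      have : Fact p.Prime := ⟨hp⟩
      rw [← jacobiSym.legendreSym.to_jacobiSym, legendreSym, Int.cast_natCast,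
        (ZMod.natCast_eq_zero_iff b p).2 hpb]
      exact quadraticChar_zero
    rw [h3] at h1
    rcases hη p hmem with h5 | h5 <;> omega
  have hY : ∀ b ∈ Bset m η, (((Finset.Ioc u (u + h)).filter
      (fun p => p.Prime ∧ p ≡ b [MOD m])).card : ℝ) ≤
      2 * C * ((h : ℝ) / (Nat.totient m * Real.log h)) := by
    intro b hb
    refine le_trans (hbt m b u h hm0 (hcop b hb) h2m) ?_
    have h1 : (h : ℝ) / (Nat.totient m * Real.log ((h : ℝ) / m)) ≤
        2 * ((h : ℝ) / (Nat.totient m * Real.log h)) := by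
      rw [mul_div_assoc', div_le_div_iff₀ (by positivity) (by positivity)]
      have h3 : (Nat.totient m : ℝ) * Real.log h ≤
          2 * (Nat.totient m * Real.log ((h : ℝ) / m)) := by nlinarith
      nlinarith
    nlinarith
  calc (S.card : ℝ) ≤ (((Bset m η).biUnion fun b =>
      (Finset.Ioc u (u + h)).filter fun p => p.Prime ∧ p ≡ b [MOD m]).card : ℝ) := by
        exact_mod_cast Finset.card_le_card hsub
    _ ≤ ∑ b ∈ Bset m η, (((Finset.Ioc u (u + h)).filter
      (fun p => p.Prime ∧ p ≡ b [MOD m])).card : ℝ) := by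
        exact_mod_cast Finset.card_biUnion_le
    _ ≤ ∑ b ∈ Bset m η, 2 * C * ((h : ℝ) / (Nat.totient m * Real.log h)) :=
        Finset.sum_le_sum hY
    _ = (Bset m η).card * (2 * C * ((h : ℝ) / (Nat.totient m * Real.log h))) := by
        rw [Finset.sum_const, nsmul_eq_mul]
    _ ≤ ((1 / 2) ^ m.primeFactors.card * Nat.totient m) *
        (2 * C * ((h : ℝ) / (Nat.totient m * Real.log h))) :=
        mul_le_mul_of_nonneg_right (card_Bset hm hodd η hη) (by positivity)
    _ = 2 * C * (1 / 2) ^ m.primeFactors.card * (h / Real.log h) := by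
        field_simp

theorem rec : StmtRec := by
  classical
  obtain ⟨C, hC, hbt⟩ := bt
  refine ⟨C / Real.log 2, div_pos hC (Real.log_pos (by norm_num)),
    fun m hm hodd η z X hz hmz hzX S hS hη => ?_⟩
  have hl2 : 0 < Real.log 2 := Real.log_pos (by norm_num)
  have hzR : (2 : ℝ) ≤ z := by exact_mod_cast hz
  have hlz : 0 < Real.log z := Real.log_pos (by linarith)
  have hl2z : Real.log 2 ≤ Real.log z := Real.log_le_log (by norm_num) hzR
  have hz0 : 0 < z := by omega
  set J := Nat.log 2 (X / z) with hJ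
  let j : ℕ → ℕ := fun Q => Nat.log 2 ((Q - 1) / z)
  have hmaps : ∀ Q ∈ S, j Q ∈ range (J + 1) := by
    intro Q hQ
    obtain ⟨q1, q2, q3, q4⟩ := hS Q hQ
    rw [Finset.mem_range, Nat.lt_succ_iff]
    exact Nat.log_mono_right (Nat.div_le_div_right (by omega))
  have hfib : ∀ i ∈ range (J + 1), ∑ Q ∈ S.filter (fun Q => j Q = i), (1 : ℝ) / Q ≤
      C * (1 / 2) ^ m.primeFactors.card / Real.log z := by
    intro i _
    set h := z * 2 ^ i with hh
    have hzh : z ≤ h := Nat.le_mul_of_pos_right _ (by positivity)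
    have hmem : ∀ Q ∈ S.filter (fun Q => j Q = i), Q.Prime ∧ h < Q ∧ Q ≤ h + h ∧
        ∀ p ∈ m.primeFactors, jacobiSym Q p = η p := by
      intro Q hQ
      rw [Finset.mem_filter] at hQ
      obtain ⟨hQS, hi⟩ := hQ
      obtain ⟨q1, q2, q3, q4⟩ := hS Q hQS
      have h1 : (Q - 1) / z ≠ 0 := by
        rw [Nat.div_ne_zero_iff]
        exact ⟨by omega, by omega⟩
      have h3 : 2 ^ i ≤ (Q - 1) / z := by
        rw [← hi]
        exact Nat.pow_log_le_self 2 h1
      have h4 : (Q - 1) / z < 2 ^ (i + 1) := by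
        rw [← hi]
        exact Nat.lt_pow_succ_log_self (by norm_num) _
      have h5 : z * 2 ^ i ≤ Q - 1 := by
        rw [mul_comm]
        exact (Nat.le_div_iff_mul_le hz0).1 h3
      have h6 : Q - 1 < z * 2 ^ (i + 1) := by
        rw [mul_comm]
        exact (Nat.div_lt_iff_lt_mul hz0).1 h4
      rw [pow_succ] at h6
      refine ⟨q1, by omega, ?_, q4⟩
      rw [hh]
      have : z * (2 ^ i * 2) = z * 2 ^ i + z * 2 ^ i := by ring
      omega
    have h1 := hbt m hm hodd η h h (by omega) (by omega) _ hmem hη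
    have hhR : (2 : ℝ) ≤ h := by
      have : 2 ≤ h := by omega
      exact_mod_cast this
    have hlzh : Real.log z ≤ Real.log h :=
      Real.log_le_log (by linarith) (by exact_mod_cast hzh)
    calc ∑ Q ∈ S.filter (fun Q => j Q = i), (1 : ℝ) / Q
        ≤ ∑ Q ∈ S.filter (fun Q => j Q = i), (1 : ℝ) / h := by
          refine Finset.sum_le_sum fun Q hQ => ?_
          have := (hmem Q hQ).2.1
          refine one_div_le_one_div_of_le (by linarith) ?_
          exact_mod_cast this.le
      _ = (S.filter (fun Q => j Q = i)).card * (1 / h) := by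
          rw [Finset.sum_const, nsmul_eq_mul]
      _ ≤ (C * (1 / 2) ^ m.primeFactors.card * (h / Real.log h)) * (1 / h) :=
          mul_le_mul_of_nonneg_right h1 (by positivity)
      _ = C * (1 / 2) ^ m.primeFactors.card / Real.log h := by
          field_simp
      _ ≤ C * (1 / 2) ^ m.primeFactors.card / Real.log z :=
          div_le_div_of_nonneg_left (by positivity) hlz hlzh
  have hXz : X / z ≠ 0 := by
    rw [Nat.div_ne_zero_iff]
    exact ⟨by omega, hzX⟩
  have hJ1 : (J : ℝ) * Real.log 2 ≤ Real.log X - Real.log z := by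
    have h1 : 2 ^ J * z ≤ X := (Nat.le_div_iff_mul_le hz0).1 (Nat.pow_log_le_self 2 hXz)
    have h3 : Real.log ((2 : ℝ) ^ J * z) ≤ Real.log X :=
      Real.log_le_log (by positivity) (by exact_mod_cast h1)
    rw [Real.log_mul (by positivity) (by linarith), Real.log_pow] at h3
    linarith
  rw [← Finset.sum_fiberwise_of_maps_to hmaps]
  refine le_trans (Finset.sum_le_sum hfib) ?_
  rw [Finset.sum_const, nsmul_eq_mul, Finset.card_range]
  have h9 : ((J + 1 : ℕ) : ℝ) ≤ Real.log X / Real.log 2 := by
    rw [le_div_iff₀ hl2]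
    push_cast
    linarith
  calc ((J + 1 : ℕ) : ℝ) * (C * (1 / 2) ^ m.primeFactors.card / Real.log z)
      ≤ (Real.log X / Real.log 2) * (C * (1 / 2) ^ m.primeFactors.card / Real.log z) :=
        mul_le_mul_of_nonneg_right h9 (by positivity)
    _ = C / Real.log 2 * (1 / 2) ^ m.primeFactors.card * (Real.log X / Real.log z) := by
        field_simp

end Pool.Agent.HP
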